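import Pool.Agent.Lib.MP_80950a_lc.Main

/-!
The Gödel logic of `{0} ∪ {1/n : n ≥ 1}` has effective validity-equivalent prenex normal forms
but is not arithmetical.
-/

open Pool.Agent.Lib.MP_80950a_lc in
/-- Answer to Q1 of MP_80950a_lc in the negative. -/
theorem Pool.Agent.Results.MP_80950a_lc.GDownPrenex.result :
    IsGodelSet Vdown ∧ HasPrenexForms Vdown ∧ ¬ IsArithmetical Vdown :=
  main.1
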